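import Pool.Agent.Run7.h928.Smo.Prog

/-!
# Progressions whose first terms are shifted at random

The discrete one-dimensional form of the problem: for a finite set `D` of integers and first terms
`a d`, `d ∈ D`, let `aps k D a` be the union of the progressions `a d, a d + d, ..., a d + (k - 1) d`.
(The least size of these sets for `|D| = N` gives the exponent `f^M_1(k)` of the problem.) For
`u : D → {0, ..., M - 1}` let `shift a u` be the first terms `a d + u d`.

1. For all `k ≥ 1`, `κ ≥ 1`, `0 ≤ η < 1` the following are equivalent, with `τ = η + (1 - η) / κ`: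
   (a) `|D| ≤ C |aps k D a| ^ κ` for all `D` and `a`;
   (b) for every `δ > 0` there is `c > 0` such that, for all `D`, `a` and `M ≥ |D| ^ η`, all but a
       proportion `δ` of the `M ^ |D|` shifts `u` satisfy `|aps k D (shift a u)| ≥ c |D| ^ τ`;
   (c) there is `c > 0` such that, for all `D`, `a` and `M ≥ |D| ^ η`, at least one `u` satisfies this.
   So the exponent `t = 1 / κ` of `k`-term progressions becomes exactly `η + (1 - η) t` for typical
   perturbations of size `|D| ^ η` of the first terms, for every `k`.
2. For all large `k` and all `0 ≤ η ≤ 1` we have (b) with `κ = 1.669587`.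
3. For every `0 ≤ η < 1` the conjecture is equivalent to its form for typical shifts of size
   `|D| ^ η`, and also to its form for one shift of this size.

Proof. (a) ⇒ (b): cut `ℤ` into blocks of length `M` and choose, for every `j < k`, at most `M` of the `j`-th
terms in every block. If many are chosen for some `j`, the shifted `j`-th terms take many values by a
second moment argument; otherwise the progressions that are not chosen for some `j` give few blocks
for every `j`, and (a) is applied to the blocks. (c) ⇒ (a): apply (c) to the common differences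
`M d + i` and first terms `M a d - i`, `0 ≤ i < M`.
-/

set_option autoImplicit false

open Finset

namespace Pool.Agent.Results.MP_4b405e_nt.RandomFirstTerms

open Pool.Agent.Run7.h928.Smo.Prog

theorem result :
    (∀ k : ℕ, 1 ≤ k → ∀ κ η : ℝ, 1 ≤ κ → 0 ≤ η → η < 1 →
      (Det k κ ↔ Typical k η (η + (1 - η) / κ)) ∧
      (Det k κ ↔ Single k η (η + (1 - η) / κ))) ∧
    (∃ k₀ : ℕ, ∀ k : ℕ, k₀ ≤ k → ∀ η : ℝ, 0 ≤ η → η ≤ 1 →
      Typical k η (η + (1 - η) / 1.669587)) ∧
    (∀ η : ℝ, 0 ≤ η → η < 1 →
      (Conjecture ↔ ∀ ε : ℝ, 0 < ε → ε < 1 → ∃ k : ℕ, 1 ≤ k ∧ Typical k η (1 - ε)) ∧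
      (Conjecture ↔ ∀ ε : ℝ, 0 < ε → ε < 1 → ∃ k : ℕ, 1 ≤ k ∧ Single k η (1 - ε))) :=
  ⟨fun _ hk _ _ hκ h0 h1 => tfae hk hκ h0 h1, uncond, fun _ h0 h1 => conj_iff h0 h1⟩

end Pool.Agent.Results.MP_4b405e_nt.RandomFirstTerms
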